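import Pool.Agent.Helper91.SY.Goals

set_option autoImplicit false

/-!
# MP_126465_gt: global inversion (packet GI of helper91)
-/

open scoped Topology ContDiff

namespace Pool.Agent.Helper53.SY

open Set Filter

section

variable {E : Type} [NormedAddCommGroup E] [NormedSpace ℝ E] [FiniteDimensional ℝ E]

/-- the derivative as an equivalence -/
theorem exists_equiv (A : E →L[ℝ] E) (h : Function.Injective A) :
    ∃ e : E ≃L[ℝ] E, (e : E →L[ℝ] E) = A := by
  refine ⟨(LinearEquiv.ofInjectiveEndo (A : E →ₗ[ℝ] E) h).toContinuousLinearEquiv, ?_⟩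
  ext x
  rfl

omit [FiniteDimensional ℝ E] in
theorem strict {φ : E → E} (h : ContDiff ℝ ∞ φ) (x : E) :
    HasStrictFDerivAt φ (fderiv ℝ φ x) x :=
  (h.contDiffAt).hasStrictFDerivAt (by simp)

theorem openMap {φ : E → E} (h : ContDiff ℝ ∞ φ)
    (hinj : ∀ x, Function.Injective (fderiv ℝ φ x)) : IsOpenMap φ := by
  rw [isOpenMap_iff_nhds_le]
  intro x
  obtain ⟨e, he⟩ := exists_equiv (fderiv ℝ φ x) (hinj x)
  have h1 := strict h x
  rw [← he] at h1
  exact h1.map_nhds_eq_of_equiv.ge

theorem locInj {φ : E → E} (h : ContDiff ℝ ∞ φ)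
    (hinj : ∀ x, Function.Injective (fderiv ℝ φ x)) (x : E) :
    ∃ U ∈ 𝓝 x, InjOn φ U := by
  obtain ⟨e, he⟩ := exists_equiv (fderiv ℝ φ x) (hinj x)
  have h1 := strict h x
  rw [← he] at h1
  refine ⟨(h1.toOpenPartialHomeomorph φ).source,
    (h1.toOpenPartialHomeomorph φ).open_source.mem_nhds
      h1.mem_toOpenPartialHomeomorph_source, ?_⟩
  have h2 := (h1.toOpenPartialHomeomorph φ).injOn
  rwa [h1.toOpenPartialHomeomorph_coe] at h2

end

/-- PACKET GI. -/
theorem gi_ : Pool.Agent.Helper91.SY.StmtGI := by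
  intro E _ _ _ φ R hφ hinj hR
  have hcont : Continuous φ := hφ.continuous
  have hopen : IsOpenMap φ := openMap hφ hinj
  have hK : IsCompact (Metric.closedBall (0 : E) R) := isCompact_closedBall 0 R
  have hout : ∀ x : E, x ∉ Metric.closedBall (0 : E) R → φ x = x := by
    intro x hx
    apply hR
    rw [Metric.mem_closedBall, dist_zero_right] at hx
    linarith
  constructor
  · -- injective
    set K : Set E := Metric.closedBall (0 : E) R with hKdef
    set K' : Set E := K ∪ φ '' K with hK'def
    have hK' : IsCompact K' := hK.union (hK.image hcont)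
    set D : Set (E × E) := {w | φ w.1 = φ w.2 ∧ w.1 ≠ w.2} with hD
    have hDclosed : IsClosed D := by
      rw [← isOpen_compl_iff, isOpen_iff_mem_nhds]
      rintro ⟨p, q⟩ hpq
      by_cases hne : φ p = φ q
      · have hpq' : p = q := by
          by_contra h
          exact hpq ⟨hne, h⟩
        subst hpq'
        obtain ⟨U, hU, hUi⟩ := locInj hφ hinj p
        filter_upwards [prod_mem_nhds hU hU] with w hw hwD
        exact hwD.2 (hUi hw.1 hw.2 hwD.1)
      · have h1 : IsOpen {w : E × E | φ w.1 ≠ φ w.2} :=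
          isOpen_ne_fun (hcont.comp continuous_fst) (hcont.comp continuous_snd)
        filter_upwards [h1.mem_nhds (show (p, q) ∈ {w : E × E | φ w.1 ≠ φ w.2} from hne)]
          with w hw hwD
        exact hw hwD.1
    set N : Set E := (fun w : E × E => φ w.1) '' D with hN
    have hNeq : N = (fun w : E × E => φ w.1) '' (D ∩ (K ×ˢ K')) := by
      apply Subset.antisymm
      · rintro z ⟨⟨p, q⟩, ⟨h1, h2⟩, rfl⟩
        have hmain : ∀ p q : E, φ p = φ q → p ≠ q → p ∈ K →
            φ p ∈ (fun w : E × E => φ w.1) '' (D ∩ (K ×ˢ K')) := by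
          intro p q h1 h2 hp
          refine ⟨(p, q), ⟨⟨h1, h2⟩, hp, ?_⟩, rfl⟩
          by_cases hq : q ∈ K
          · exact Or.inl hq
          · right
            refine ⟨p, hp, ?_⟩
            rw [h1, hout q hq]
        by_cases hp : p ∈ K
        · exact hmain p q h1 h2 hp
        · by_cases hq : q ∈ K
          · have := hmain q p h1.symm (Ne.symm h2) hq
            show φ p ∈ _
            rw [show φ p = φ q from h1]
            exact this
          · exfalso
            apply h2
            have h3 : φ p = φ q := h1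
            rw [hout p hp, hout q hq] at h3
            exact h3
      · exact image_mono inter_subset_left
    have hNcomp : IsCompact N := by
      rw [hNeq]
      apply IsCompact.image _ (hcont.comp continuous_fst)
      exact (hK.prod hK').inter_left hDclosed
    have hNopen : IsOpen N := by
      rw [isOpen_iff_mem_nhds]
      rintro z ⟨⟨p, q⟩, ⟨h1, h2⟩, rfl⟩
      obtain ⟨U, V, hU, hV, hpU, hqV, hUV⟩ := t2_separation (show p ≠ q from h2)
      have h3 : φ '' U ∩ φ '' V ∈ 𝓝 (φ p) := by
        apply inter_mem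
        · exact (hopen U hU).mem_nhds ⟨p, hpU, rfl⟩
        · exact (hopen V hV).mem_nhds ⟨q, hqV, (show φ p = φ q from h1).symm⟩
      filter_upwards [h3]
      rintro y ⟨⟨p', hp', hy⟩, ⟨q', hq', hy'⟩⟩
      refine ⟨(p', q'), ⟨by show φ p' = φ q'; rw [hy, hy'], ?_⟩, hy⟩
      intro h4
      have h5 : p' = q' := h4
      rw [h5] at hp'
      exact (disjoint_left.1 hUV) hp' hq'
    have hclopen : IsClopen N := ⟨hNcomp.isClosed, hNopen⟩
    intro p q hpq
    by_contra hne
    have hmem : φ p ∈ N := ⟨(p, q), ⟨hpq, hne⟩, rfl⟩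
    have : Nontrivial E := ⟨p, q, hne⟩
    have huniv : N = univ := hclopen.eq_univ ⟨_, hmem⟩
    rw [huniv] at hNcomp
    have : NoncompactSpace E := NormedSpace.noncompactSpace ℝ E
    exact noncompact_univ E hNcomp
  · -- surjective
    have hrange : range φ = φ '' Metric.closedBall (0 : E) R ∪ {z : E | R ≤ ‖z‖} := by
      apply Subset.antisymm
      · rintro z ⟨x, rfl⟩
        by_cases hx : x ∈ Metric.closedBall (0 : E) R
        · exact Or.inl ⟨x, hx, rfl⟩
        · right
          rw [hout x hx]
          rw [Metric.mem_closedBall, dist_zero_right] at hx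
          exact (not_le.1 hx).le
      · rintro z (⟨x, -, rfl⟩ | hz)
        · exact ⟨x, rfl⟩
        · exact ⟨z, hR z hz⟩
    have hclosed : IsClosed (range φ) := by
      rw [hrange]
      exact (hK.image hcont).isClosed.union (isClosed_le continuous_const continuous_norm)
    have hcl : IsClopen (range φ) := ⟨hclosed, hopen.isOpen_range⟩
    exact range_eq_univ.1 (hcl.eq_univ ⟨φ 0, 0, rfl⟩)

end Pool.Agent.Helper53.SY
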